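import Pool.Agent.Helper63.Pak.Basic

/-! PT-A : values of elements of `Ω` at points. -/

namespace Pool.Agent.Helper63.Pak

open IntermediateField

variable {Ω : Type} [Field Ω] [Algebra ℂ Ω]

/-! ### residues -/

theorem pt_trans_ne_zero {y : Ω} (hy : Transcendental ℂ y) : y ≠ 0 := by
  rintro rfl
  exact hy isAlgebraic_zero

omit [Algebra ℂ Ω] in
theorem pt_lt_one_iff (V : ValuationSubring Ω) (x : Ω) : V.valuation x < 1 ↔ x = 0 ∨ x⁻¹ ∉ V := by
  rw [← ValuationSubring.mem_nonunits_iff, ValuationSubring.mem_nonunits_iff_or]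

omit [Algebra ℂ Ω] in
theorem pt_eq_one_of_inv_mem {V : ValuationSubring Ω} {x : Ω} (h0 : x ≠ 0) (h : x ∈ V)
    (h' : x⁻¹ ∈ V) : V.valuation x = 1 := by
  have h1 := (V.valuation_le_one_iff x).2 h
  refine le_antisymm h1 (not_lt.1 fun h2 => ?_)
  rcases (pt_lt_one_iff V x).1 h2 with h3 | h3
  · exact h0 h3
  · exact h3 h'

theorem pt_const_val (v : Pt Ω) {c : ℂ} (hc : c ≠ 0) :
    v.ring.valuation (algebraMap ℂ Ω c) = 1 := by
  refine pt_eq_one_of_inv_mem ?_ (v.const_mem c) ?_
  · exact (map_ne_zero _).2 hc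
  · rw [← map_inv₀]; exact v.const_mem _

theorem pt_residue_unique (v : Pt Ω) {z : Ω} {c c' : ℂ}
    (h : v.ring.valuation (z - algebraMap ℂ Ω c) < 1)
    (h' : v.ring.valuation (z - algebraMap ℂ Ω c') < 1) : c = c' := by
  by_contra hne
  have h1 : v.ring.valuation (algebraMap ℂ Ω (c - c')) < 1 := by
    have h2 : algebraMap ℂ Ω (c - c') = (z - algebraMap ℂ Ω c') - (z - algebraMap ℂ Ω c) := by
      rw [map_sub]; ring
    rw [h2]
    exact lt_of_le_of_lt (Valuation.map_sub _ _ _) (max_lt h' h)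
  rw [pt_const_val v (sub_ne_zero.2 hne)] at h1
  exact lt_irrefl _ h1

theorem pt_mem_of_residue (v : Pt Ω) {z : Ω} {c : ℂ}
    (h : v.ring.valuation (z - algebraMap ℂ Ω c) < 1) : z ∈ v.ring := by
  have h1 : z - algebraMap ℂ Ω c ∈ v.ring := (v.ring.valuation_le_one_iff _).1 h.le
  have h2 := v.ring.add_mem _ _ h1 (v.const_mem c)
  rwa [sub_add_cancel] at h2

section universe_
variable [CurveUniverse Ω]

theorem pt_isAlgebraic {z : Ω} (hz : Transcendental ℂ z) : Algebra.IsAlgebraic ℂ⟮z⟯ Ω := by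
  have h1 : AlgebraicIndependent ℂ (fun _ : Unit => z) := algebraicIndependent_unique_type_iff.2 hz
  have h2 : IsTranscendenceBasis ℂ (fun _ : Unit => z) := by
    refine h1.isTranscendenceBasis_of_trdeg_le_of_finite ?_
    rw [CurveUniverse.trdeg_eq]
    simp
  have h3 := h2.isAlgebraic_field
  have h4 : Set.range (fun _ : Unit => z) = {z} := Set.range_const
  rw [h4] at h3
  exact h3

theorem pt_not_adjoin_le (v : Pt Ω) {z : Ω} (hz : Transcendental ℂ z) :
    ¬ ∀ w ∈ ℂ⟮z⟯, w ∈ v.ring := by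
  intro h
  apply v.ne_top
  refine top_unique fun w _ => ?_
  have := pt_isAlgebraic hz
  have h1 : IsIntegral ℂ⟮z⟯ w := Algebra.IsIntegral.isIntegral w
  obtain ⟨p, hp, hp0⟩ := h1
  have h2 : IsIntegral v.ring w := by
    let φ : ℂ⟮z⟯ →+* v.ring :=
      { toFun := fun x => ⟨x, h x x.2⟩
        map_one' := rfl
        map_mul' := fun _ _ => rfl
        map_zero' := rfl
        map_add' := fun _ _ => rfl }
    refine ⟨p.map φ, hp.map φ, ?_⟩
    rw [Polynomial.eval₂_map]
    exact hp0
  obtain ⟨y, hy⟩ := (IsIntegrallyClosed.isIntegral_iff (R := v.ring) (K := Ω)).1 h2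
  rw [← hy]
  exact y.2

theorem pt_exists_residue (v : Pt Ω) {z : Ω} (hz : z ∈ v.ring) :
    ∃ c : ℂ, v.ring.valuation (z - algebraMap ℂ Ω c) < 1 := by
  by_contra hno
  push Not at hno
  have hunit : ∀ c : ℂ, z - algebraMap ℂ Ω c ≠ 0 ∧ (z - algebraMap ℂ Ω c)⁻¹ ∈ v.ring := by
    intro c
    have h1 := not_lt.2 (hno c)
    rw [pt_lt_one_iff, not_or, not_not] at h1
    exact h1
  have key : ∀ p : Polynomial ℂ, p ≠ 0 → Polynomial.aeval z p ≠ 0 ∧
      (Polynomial.aeval z p)⁻¹ ∈ v.ring ∧ Polynomial.aeval z p ∈ v.ring := by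
    intro p hp
    have hs := IsAlgClosed.splits p
    rw [hs.eq_prod_roots]
    have hlc : p.leadingCoeff ≠ 0 := Polynomial.leadingCoeff_ne_zero.2 hp
    have hprod : ∀ s : Multiset ℂ,
        Polynomial.aeval z (Multiset.map (fun a => Polynomial.X - Polynomial.C a) s).prod ≠ 0 ∧
        (Polynomial.aeval z (Multiset.map (fun a => Polynomial.X - Polynomial.C a) s).prod)⁻¹
          ∈ v.ring ∧
        Polynomial.aeval z (Multiset.map (fun a => Polynomial.X - Polynomial.C a) s).prod
          ∈ v.ring := by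
      intro s
      induction s using Multiset.induction_on with
      | empty =>
        simp only [Multiset.map_zero, Multiset.prod_zero, map_one, inv_one]
        exact ⟨one_ne_zero, v.ring.one_mem, v.ring.one_mem⟩
      | cons a s ih =>
        rw [Multiset.map_cons, Multiset.prod_cons, map_mul, map_sub, Polynomial.aeval_X,
          Polynomial.aeval_C, mul_inv]
        exact ⟨mul_ne_zero (hunit a).1 ih.1, v.ring.mul_mem _ _ (hunit a).2 ih.2.1,
          v.ring.mul_mem _ _ (by
            have := v.ring.add_mem _ _ hz (v.ring.neg_mem _ (v.const_mem a))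
            rwa [← sub_eq_add_neg] at this) ih.2.2⟩
    obtain ⟨h1, h2, h3⟩ := hprod p.roots
    rw [map_mul, Polynomial.aeval_C, mul_inv, ← map_inv₀]
    exact ⟨mul_ne_zero ((map_ne_zero _).2 hlc) h1, v.ring.mul_mem _ _ (v.const_mem _) h2,
      v.ring.mul_mem _ _ (v.const_mem _) h3⟩
  have htr : Transcendental ℂ z := by
    rw [transcendental_iff]
    intro p hp
    by_contra h0
    exact (key p h0).1 hp
  apply pt_not_adjoin_le v htr
  intro w hw
  obtain ⟨r, s, hrs⟩ := (mem_adjoin_simple_iff ℂ w).1 hw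
  rw [hrs, div_eq_mul_inv]
  by_cases hr : r = 0
  · rw [hr, map_zero, zero_mul]; exact v.ring.zero_mem
  by_cases hs : s = 0
  · rw [hs, map_zero, inv_zero, mul_zero]; exact v.ring.zero_mem
  exact v.ring.mul_mem _ _ (key r hr).2.2 (key s hs).2.1

omit [CurveUniverse Ω] in
theorem pt_val_eq_coe_iff' (v : Pt Ω) (z : Ω) (c : ℂ) :
    val v z = (c : OnePoint ℂ) ↔ v.ring.valuation (z - algebraMap ℂ Ω c) < 1 := by
  unfold val
  split_ifs with h
  · constructor
    · intro h1
      have h2 : h.choose = c := OnePoint.coe_injective h1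
      rw [← h2]
      exact h.choose_spec
    · intro h1
      rw [pt_residue_unique v h.choose_spec h1]
  · constructor
    · intro h1
      exact absurd h1.symm (OnePoint.coe_ne_infty c)
    · intro h1
      exact absurd ⟨c, h1⟩ h

set_option linter.unusedSectionVars false in
theorem pt_val_eq_coe_iff (v : Pt Ω) (z : Ω) (c : ℂ) :
    val v z = (c : OnePoint ℂ) ↔ v.ring.valuation (z - algebraMap ℂ Ω c) < 1 :=
  pt_val_eq_coe_iff' v z c

theorem pt_mem_ring_iff (v : Pt Ω) (z : Ω) : z ∈ v.ring ↔ val v z ≠ OnePoint.infty := by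
  constructor
  · intro h
    obtain ⟨c, hc⟩ := pt_exists_residue v h
    rw [(pt_val_eq_coe_iff v z c).2 hc]
    exact OnePoint.coe_ne_infty c
  · intro h
    obtain ⟨c, hc⟩ := OnePoint.ne_infty_iff_exists.1 h
    exact pt_mem_of_residue v ((pt_val_eq_coe_iff v z c).1 hc.symm)

theorem pt_val_algebraMap (v : Pt Ω) (c : ℂ) : val v (algebraMap ℂ Ω c) = (c : OnePoint ℂ) := by
  rw [pt_val_eq_coe_iff, sub_self, map_zero]
  exact zero_lt_one

omit [CurveUniverse Ω] in
theorem pt_val_congr {v w : Pt Ω} {z z' : Ω}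
    (h : ∀ c : ℂ, val v z = (c : OnePoint ℂ) ↔ val w z' = (c : OnePoint ℂ)) :
    val v z = val w z' := by
  by_cases h1 : val v z = OnePoint.infty
  · by_cases h2 : val w z' = OnePoint.infty
    · rw [h1, h2]
    · obtain ⟨c, hc⟩ := OnePoint.ne_infty_iff_exists.1 h2
      rw [(h c).2 hc.symm, hc]
  · obtain ⟨c, hc⟩ := OnePoint.ne_infty_iff_exists.1 h1
    rw [← hc, (h c).1 hc.symm]

theorem pt_val_smul (g : Ω ≃ₐ[ℂ] Ω) (v : Pt Ω) (z : Ω) : val (g • v) (g z) = val v z := by
  refine pt_val_congr fun c => ?_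
  rw [pt_val_eq_coe_iff, pt_val_eq_coe_iff, pt_lt_one_iff, pt_lt_one_iff]
  have h1 : g z - algebraMap ℂ Ω c = g (z - algebraMap ℂ Ω c) := by
    rw [map_sub, AlgEquiv.commutes]
  rw [h1, ← map_inv₀, mem_smul_ring, AlgEquiv.symm_apply_apply]
  refine or_congr ?_ Iff.rfl
  exact map_eq_zero_iff g g.injective

theorem pt_val_eq_of_sameOn {v w : Pt Ω} {K : IntermediateField ℂ Ω} {z : Ω}
    (h : SameOn K v w) (hz : z ∈ K) : val v z = val w z := by
  refine pt_val_congr fun c => ?_
  rw [pt_val_eq_coe_iff, pt_val_eq_coe_iff, pt_lt_one_iff, pt_lt_one_iff]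
  refine or_congr Iff.rfl (not_congr (h _ ?_))
  exact K.inv_mem (K.sub_mem hz (K.algebraMap_mem c))

/-! ### values of polynomials and of quotients -/

omit [CurveUniverse Ω] in
theorem pt_lt_one_mul (v : Pt Ω) {a b : Ω} (ha : v.ring.valuation a < 1) (hb : b ∈ v.ring) :
    v.ring.valuation (a * b) < 1 := by
  rw [map_mul]
  exact mul_lt_one_of_lt_of_le ha ((v.ring.valuation_le_one_iff b).2 hb)

omit [CurveUniverse Ω] in
theorem pt_aeval_mem (v : Pt Ω) {z : Ω} (hz : z ∈ v.ring) (p : Polynomial ℂ) :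
    Polynomial.aeval z p ∈ v.ring := by
  induction p using Polynomial.induction_on' with
  | add p q hp hq => rw [map_add]; exact v.ring.add_mem _ _ hp hq
  | monomial n a =>
    rw [Polynomial.aeval_monomial]
    exact v.ring.mul_mem _ _ (v.const_mem a) (pow_mem hz n)

omit [CurveUniverse Ω] in
/-- residue of a polynomial -/
theorem pt_aeval_residue (v : Pt Ω) {z : Ω} {c : ℂ}
    (h : v.ring.valuation (z - algebraMap ℂ Ω c) < 1) (p : Polynomial ℂ) :
    v.ring.valuation (Polynomial.aeval z p - algebraMap ℂ Ω (p.eval c)) < 1 := by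
  have hz := pt_mem_of_residue v h
  have h1 : Polynomial.X - Polynomial.C c ∣ p - Polynomial.C (p.eval c) := by
    exact Polynomial.X_sub_C_dvd_sub_C_eval
  obtain ⟨r, hr⟩ := h1
  have h2 : Polynomial.aeval z p - algebraMap ℂ Ω (p.eval c) =
      (z - algebraMap ℂ Ω c) * Polynomial.aeval z r := by
    have h3 := congrArg (Polynomial.aeval z) hr
    rw [map_sub, map_mul, map_sub, Polynomial.aeval_X, Polynomial.aeval_C, Polynomial.aeval_C]
      at h3
    exact h3
  rw [h2]
  exact pt_lt_one_mul v h (pt_aeval_mem v hz r)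

omit [CurveUniverse Ω] in
theorem pt_eq_one_of_residue (v : Pt Ω) {z : Ω} {c : ℂ} (hc : c ≠ 0)
    (h : v.ring.valuation (z - algebraMap ℂ Ω c) < 1) : v.ring.valuation z = 1 := by
  have h1 : z = (z - algebraMap ℂ Ω c) + algebraMap ℂ Ω c := by ring
  rw [h1, Valuation.map_add_eq_of_lt_right _ (by rw [pt_const_val v hc]; exact h),
    pt_const_val v hc]

omit [CurveUniverse Ω] in
/-- residue of a quotient, finite case -/
theorem pt_div_residue (v : Pt Ω) {a b : Ω} {c d : ℂ}
    (ha : v.ring.valuation (a - algebraMap ℂ Ω c) < 1)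
    (hb : v.ring.valuation (b - algebraMap ℂ Ω d) < 1) (hd : d ≠ 0) :
    val v (a / b) = ((c / d : ℂ) : OnePoint ℂ) := by
  rw [pt_val_eq_coe_iff']
  have hb1 := pt_eq_one_of_residue v hd hb
  have hb0 : b ≠ 0 := by
    intro h0
    rw [h0, map_zero] at hb1
    exact zero_ne_one hb1
  have hd0 : algebraMap ℂ Ω d ≠ 0 := (map_ne_zero _).2 hd
  have h1 : a / b - algebraMap ℂ Ω (c / d) =
      ((a - algebraMap ℂ Ω c) * algebraMap ℂ Ω d - (b - algebraMap ℂ Ω d) * algebraMap ℂ Ω c)
        / (b * algebraMap ℂ Ω d) := by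
    rw [map_div₀]
    field_simp
    ring
  rw [h1, map_div₀, map_mul v.ring.valuation b, hb1, pt_const_val v hd, mul_one, div_one]
  refine lt_of_le_of_lt (Valuation.map_sub _ _ _) (max_lt ?_ ?_)
  · exact pt_lt_one_mul v ha (v.const_mem d)
  · exact pt_lt_one_mul v hb (v.const_mem c)

omit [CurveUniverse Ω] in
/-- poles -/
theorem pt_val_infty_of_inv (v : Pt Ω) {z : Ω} (h0 : z ≠ 0) (h : v.ring.valuation z⁻¹ < 1) :
    val v z = OnePoint.infty := by
  by_contra hne
  obtain ⟨c, hc⟩ := OnePoint.ne_infty_iff_exists.1 hne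
  have hz := pt_mem_of_residue v ((pt_val_eq_coe_iff' v z c).1 hc.symm)
  rcases (pt_lt_one_iff _ _).1 h with h1 | h1
  · exact h0 (inv_eq_zero.1 h1)
  · rw [inv_inv] at h1
    exact h1 hz

omit [CurveUniverse Ω] in
theorem pt_div_pole (v : Pt Ω) {a b : Ω} {c : ℂ}
    (ha : v.ring.valuation (a - algebraMap ℂ Ω c) < 1) (hb0 : b ≠ 0)
    (hb : v.ring.valuation b < 1) (hc : c ≠ 0) :
    val v (a / b) = OnePoint.infty := by
  have ha1 := pt_eq_one_of_residue v hc ha
  have ha0 : a ≠ 0 := by
    intro h0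
    rw [h0, map_zero] at ha1
    exact zero_ne_one ha1
  refine pt_val_infty_of_inv v (div_ne_zero ha0 hb0) ?_
  rw [inv_div, map_div₀, ha1, div_one]
  exact hb

omit [CurveUniverse Ω] in
theorem pt_ev_def (A : RatFunc ℂ) (y : Ω) :
    ev A y = Polynomial.aeval y A.num / Polynomial.aeval y A.denom := by
  rw [ev, RatFunc.eval, Polynomial.aeval_def, Polynomial.aeval_def]

omit [CurveUniverse Ω] in
theorem pt_aeval_ne_zero {y : Ω} (hy : Transcendental ℂ y) {p : Polynomial ℂ} (hp : p ≠ 0) :
    Polynomial.aeval y p ≠ 0 := fun h => hp ((transcendental_iff.1 hy) p h)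

omit [CurveUniverse Ω] in
theorem pt_num_denom_not_both (A : RatFunc ℂ) {c : ℂ} (h : A.denom.eval c = 0) :
    A.num.eval c ≠ 0 := by
  intro h0
  obtain ⟨a, b, hab⟩ := A.isCoprime_num_denom
  have h1 := congrArg (Polynomial.eval c) hab
  rw [Polynomial.eval_add, Polynomial.eval_mul, Polynomial.eval_mul, h0, h, mul_zero, mul_zero,
    add_zero, Polynomial.eval_one] at h1
  exact zero_ne_one h1

omit [CurveUniverse Ω] in
/-- homogenisation at infinity -/
theorem pt_aeval_reflect {y : Ω} (hy : y ≠ 0) (N : ℕ) (p : Polynomial ℂ) (hp : p.natDegree ≤ N) :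
    Polynomial.aeval y p = Polynomial.aeval y⁻¹ (Polynomial.reflect N p) * y ^ N := by
  have : Invertible y := invertibleOfNonzero hy
  have h1 := Polynomial.eval₂_reflect_mul_pow (algebraMap ℂ Ω) y N p hp
  rw [invOf_eq_inv] at h1
  rw [Polynomial.aeval_def, Polynomial.aeval_def, h1]

omit [CurveUniverse Ω] in
theorem pt_eval_zero_reflect (N : ℕ) (p : Polynomial ℂ) :
    (Polynomial.reflect N p).eval 0 = p.coeff N := by
  rw [← Polynomial.coeff_zero_eq_eval_zero, Polynomial.coeff_reflect]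
  congr 1

theorem pt_val_ev (v : Pt Ω) (A : RatFunc ℂ) {y : Ω} (hy : Transcendental ℂ y) :
    val v (ev A y) = pmap A (val v y) := by
  have hy0 : y ≠ 0 := (pt_trans_ne_zero hy)
  have hden : Polynomial.aeval y A.denom ≠ 0 := pt_aeval_ne_zero hy A.denom_ne_zero
  rw [pt_ev_def]
  by_cases hinf : val v y = OnePoint.infty
  · rw [hinf]
    have hyr : y ∉ v.ring := fun h => ((pt_mem_ring_iff v y).1 h) hinf
    have hyi : v.ring.valuation (y⁻¹ - algebraMap ℂ Ω 0) < 1 := by
      rw [map_zero, sub_zero, pt_lt_one_iff, inv_inv]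
      exact Or.inr hyr
    set d := rdeg A with hd
    have hn : A.num.natDegree ≤ d := le_max_left _ _
    have hdn : A.denom.natDegree ≤ d := le_max_right _ _
    have e1 := pt_aeval_reflect hy0 d A.num hn
    have e2 := pt_aeval_reflect hy0 d A.denom hdn
    have hyd : y ^ d ≠ 0 := pow_ne_zero _ hy0
    have e3 : Polynomial.aeval y A.num / Polynomial.aeval y A.denom =
        Polynomial.aeval y⁻¹ (Polynomial.reflect d A.num) /
          Polynomial.aeval y⁻¹ (Polynomial.reflect d A.denom) := by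
      rw [e1, e2, mul_div_mul_right _ _ hyd]
    have r1 := pt_aeval_residue v hyi (Polynomial.reflect d A.num)
    have r2 := pt_aeval_residue v hyi (Polynomial.reflect d A.denom)
    rw [pt_eval_zero_reflect] at r1 r2
    have hden' : Polynomial.aeval y⁻¹ (Polynomial.reflect d A.denom) ≠ 0 := by
      intro h0
      rw [e2, h0, zero_mul] at hden
      exact hden rfl
    rw [e3]
    by_cases hq : A.denom.coeff d = 0
    · have hp : A.num.coeff d ≠ 0 := by
        intro hp
        have h1 : A.num.natDegree ≠ d ∨ A.num = 0 := by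
          by_contra hcon
          push Not at hcon
          obtain ⟨h2, h3⟩ := hcon
          rw [← h2] at hp
          exact (Polynomial.leadingCoeff_ne_zero.2 h3) hp
        have h2 : A.denom.natDegree ≠ d := by
          intro h3
          rw [← h3] at hq
          exact (Polynomial.leadingCoeff_ne_zero.2 A.denom_ne_zero) hq
        have h3 : max A.num.natDegree A.denom.natDegree = d := hd.symm
        rcases h1 with h1 | h1
        · rcases max_choice A.num.natDegree A.denom.natDegree with h4 | h4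
          · rw [h4] at h3; exact h1 h3
          · rw [h4] at h3; exact h2 h3
        · rw [h1, Polynomial.natDegree_zero] at h3
          rw [max_eq_right (Nat.zero_le _)] at h3
          exact h2 h3
      have h4 : pmap A OnePoint.infty = OnePoint.infty := by
        show pmap A none = OnePoint.infty
        unfold pmap
        simp only [← hd, hq, if_true]
      rw [h4]
      refine pt_div_pole v r1 hden' ?_ hp
      rw [hq, map_zero, sub_zero] at r2
      exact r2
    · have h4 : pmap A OnePoint.infty =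
          ((A.num.coeff d / A.denom.coeff d : ℂ) : OnePoint ℂ) := by
        show pmap A none = _
        unfold pmap
        simp only [← hd, hq, if_false]
      rw [h4]
      exact pt_div_residue v r1 r2 hq
  · obtain ⟨c, hc⟩ := OnePoint.ne_infty_iff_exists.1 hinf
    rw [← hc]
    have hyc := (pt_val_eq_coe_iff v y c).1 hc.symm
    have r1 := pt_aeval_residue v hyc A.num
    have r2 := pt_aeval_residue v hyc A.denom
    by_cases hq : A.denom.eval c = 0
    · have h4 : pmap A (c : OnePoint ℂ) = OnePoint.infty := by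
        show pmap A (some c) = _
        unfold pmap
        simp only [hq, if_true]
      rw [h4]
      refine pt_div_pole v r1 hden ?_ (pt_num_denom_not_both A hq)
      rw [hq, map_zero, sub_zero] at r2
      exact r2
    · have h4 : pmap A (c : OnePoint ℂ) =
          ((A.num.eval c / A.denom.eval c : ℂ) : OnePoint ℂ) := by
        show pmap A (some c) = _
        unfold pmap
        simp only [hq, if_false]
      rw [h4]
      exact pt_div_residue v r1 r2 hq

omit [CurveUniverse Ω] in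
/-- every element of `ℂ(y)` is `A(y)` for a rational function `A` -/
theorem pt_exists_ev_eq {y : Ω} (hy : Transcendental ℂ y) {z : Ω} (hz : z ∈ ℂ⟮y⟯) :
    ∃ A : RatFunc ℂ, ev A y = z := by
  obtain ⟨r, s, hrs⟩ := (mem_adjoin_simple_iff ℂ z).1 hz
  by_cases hs : s = 0
  · refine ⟨0, ?_⟩
    rw [hrs, hs, map_zero, div_zero, ev, RatFunc.eval_zero]
  · refine ⟨algebraMap _ _ r / algebraMap _ _ s, ?_⟩
    set A : RatFunc ℂ := algebraMap _ _ r / algebraMap _ _ s with hA
    have hs' : algebraMap (Polynomial ℂ) (RatFunc ℂ) s ≠ 0 :=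
      (map_ne_zero_iff _ (RatFunc.algebraMap_injective ℂ)).2 hs
    have hd' : algebraMap (Polynomial ℂ) (RatFunc ℂ) A.denom ≠ 0 :=
      (map_ne_zero_iff _ (RatFunc.algebraMap_injective ℂ)).2 A.denom_ne_zero
    have h1 : A.num * s = r * A.denom := by
      apply RatFunc.algebraMap_injective ℂ
      rw [map_mul, map_mul]
      have h2 := A.num_div_denom
      rw [div_eq_iff hd'] at h2
      rw [h2, hA]
      field_simp
    have h3 := congrArg (Polynomial.aeval y) h1
    rw [map_mul, map_mul] at h3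
    rw [pt_ev_def, hrs, div_eq_div_iff (pt_aeval_ne_zero hy A.denom_ne_zero) (pt_aeval_ne_zero hy hs), h3]

theorem pt_sameOn_adjoin {v w : Pt Ω} {y : Ω} (hy : Transcendental ℂ y) (h : val v y = val w y) :
    SameOn ℂ⟮y⟯ v w := by
  intro z hz
  obtain ⟨A, rfl⟩ := pt_exists_ev_eq hy hz
  rw [pt_mem_ring_iff, pt_mem_ring_iff, pt_val_ev v A hy, pt_val_ev w A hy, h]

/-! ### existence of points -/

omit [CurveUniverse Ω] in
theorem pt_exists_lt_one {y : Ω} (hy : Transcendental ℂ y) (c : ℂ) :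
    ∃ v : Pt Ω, v.ring.valuation (y - algebraMap ℂ Ω c) < 1 := by
  set A : Subring Ω := (Polynomial.aeval (R := ℂ) y : Polynomial ℂ →ₐ[ℂ] Ω).toRingHom.range with hA
  have hyA : y - algebraMap ℂ Ω c ∈ A := by
    refine ⟨Polynomial.X - Polynomial.C c, ?_⟩
    simp
  have hcA : ∀ a : ℂ, algebraMap ℂ Ω a ∈ A := by
    intro a
    refine ⟨Polynomial.C a, ?_⟩
    simp
  set I : Ideal A := Ideal.span {⟨y - algebraMap ℂ Ω c, hyA⟩} with hI
  have hIne : I ≠ ⊤ := by
    intro h
    rw [hI, Ideal.span_singleton_eq_top, isUnit_iff_exists_inv] at h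
    obtain ⟨⟨b, ⟨p, hp⟩⟩, hb⟩ := h
    have h1 : (y - algebraMap ℂ Ω c) * b = 1 := congrArg Subtype.val hb
    have hp' : Polynomial.aeval y p = b := hp
    have h2 : Polynomial.aeval y ((Polynomial.X - Polynomial.C c) * p - 1) = 0 := by
      rw [map_sub, map_mul, map_sub, Polynomial.aeval_X, Polynomial.aeval_C, map_one, hp', h1,
        sub_self]
    have h3 := (transcendental_iff.1 hy) _ h2
    have h4 := congrArg (Polynomial.eval c) h3
    simp at h4
  obtain ⟨B, hB, hIB⟩ := Ideal.image_subset_nonunits_valuationSubring I hIne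
  have hmem : y - algebraMap ℂ Ω c ∈ B.nonunits :=
    hIB ⟨⟨_, hyA⟩, Ideal.subset_span rfl, rfl⟩
  have hne0 : y - algebraMap ℂ Ω c ≠ 0 := by
    intro h0
    have h1 := pt_aeval_ne_zero hy (Polynomial.X_sub_C_ne_zero c)
    rw [map_sub, Polynomial.aeval_X, Polynomial.aeval_C] at h1
    exact h1 h0
  refine ⟨⟨B, fun a => hB (hcA a), ?_⟩, ?_⟩
  · intro htop
    rcases (ValuationSubring.mem_nonunits_iff_or _).1 hmem with h1 | h1
    · exact hne0 h1
    · apply h1
      rw [htop]
      trivial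
  · exact (ValuationSubring.mem_nonunits_iff _).1 hmem

theorem pt_exists_val {y : Ω} (hy : Transcendental ℂ y) (p : OnePoint ℂ) :
    ∃ v : Pt Ω, val v y = p := by
  by_cases hp : p = OnePoint.infty
  · have hyi : Transcendental ℂ y⁻¹ := by
      intro h
      apply hy
      have := h.inv
      rwa [inv_inv] at this
    obtain ⟨v, hv⟩ := pt_exists_lt_one hyi 0
    refine ⟨v, ?_⟩
    rw [map_zero, sub_zero] at hv
    rw [hp]
    exact pt_val_infty_of_inv v (pt_trans_ne_zero hy) hv
  · obtain ⟨c, hc⟩ := OnePoint.ne_infty_iff_exists.1 hp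
    obtain ⟨v, hv⟩ := pt_exists_lt_one hy c
    exact ⟨v, by rw [← hc]; exact (pt_val_eq_coe_iff v y c).2 hv⟩

end universe_

end Pool.Agent.Helper63.Pak
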